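import Pool.Agent.H16.GZ.Targets4

/-!
Row HSZ: the Hilbert-Schmidt bound for an orthonormal family, outer variable in a subset.
-/

set_option autoImplicit false

namespace Pool.Agent.H61.GZ

open MeasureTheory Pool.Agent.H34.GM Pool.Agent.H34.GZ

section abs

variable {A R : Type} [MeasurableSpace A] [Fintype R] [MeasurableSpace R]
  [MeasurableSingletonClass R]

theorem hsz_lint (μ : Measure A) [SFinite μ] (G : A × R → ENNReal) (hG : Measurable G) :
    ∫⁻ p, G p ∂(μ.prod (Measure.count : Measure R)) = ∫⁻ g, ∑ x, G (g, x) ∂μ := by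
  rw [lintegral_prod _ hG.aemeasurable]
  refine lintegral_congr (fun g => ?_)
  rw [lintegral_count, tsum_fintype]

theorem hsz_lintS (μ : Measure A) [SFinite μ] (S : Set A) (G : A × R → ENNReal)
    (hG : Measurable G) :
    ∫⁻ p in S ×ˢ (Set.univ : Set R), G p ∂(μ.prod (Measure.count : Measure R)) =
      ∫⁻ g in S, ∑ x, G (g, x) ∂μ := by
  rw [← Measure.prod_restrict, Measure.restrict_univ]
  exact hsz_lint _ G hG

theorem hsz_meas {β : Type} [MeasurableSpace β] (K : A → R → A → R → β)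
    (hK : ∀ x w, Measurable (fun p : A × A => K p.1 x p.2 w)) :
    Measurable (fun q : (A × R) × (A × R) => K q.1.1 q.1.2 q.2.1 q.2.2) := by
  have h1 : Measurable (fun p : (A × A) × (R × R) => K p.1.1 p.2.1 p.1.2 p.2.2) := by
    refine measurable_from_prod_countable_left (fun y => ?_)
    exact hK y.1 y.2
  have h2 : Measurable (fun q : (A × R) × (A × R) =>
      (((q.1.1, q.2.1), (q.1.2, q.2.2)) : (A × A) × (R × R))) := by
    fun_prop
  exact h1.comp h2

/-- the right hand side of Bessel's inequality -/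
theorem hsz_rhs (μ : Measure A) [SFinite μ] (S : Set A) (P : A → R → A → R → ENNReal)
    (hP : Measurable (fun q : (A × R) × (A × R) => P q.1.1 q.1.2 q.2.1 q.2.2)) :
    ∫⁻ p in S ×ˢ (Set.univ : Set R), ∫⁻ z, (∫⁻ y, P p.1 p.2 y.1 y.2 * P y.1 y.2 z.1 z.2
      ∂(μ.prod (Measure.count : Measure R))) ^ 2 ∂(μ.prod (Measure.count : Measure R))
      ∂(μ.prod (Measure.count : Measure R)) =
    ∫⁻ g in S, ∑ x, ∫⁻ k, ∑ z, (∫⁻ h, ∑ w, P g x h w * P h w k z ∂μ) ^ 2 ∂μ ∂μ := by
  have hQQ : Measurable (fun w : ((A × R) × (A × R)) × (A × R) =>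
      P w.1.1.1 w.1.1.2 w.2.1 w.2.2 * P w.2.1 w.2.2 w.1.2.1 w.1.2.2) := by
    have h1 : Measurable (fun w : ((A × R) × (A × R)) × (A × R) => (w.1.1, w.2)) := by
      fun_prop
    have h2 : Measurable (fun w : ((A × R) × (A × R)) × (A × R) => (w.2, w.1.2)) := by
      fun_prop
    exact (hP.comp h1).mul (hP.comp h2)
  have hI : Measurable (fun q : (A × R) × (A × R) =>
      ∫⁻ y, P q.1.1 q.1.2 y.1 y.2 * P y.1 y.2 q.2.1 q.2.2
        ∂(μ.prod (Measure.count : Measure R))) :=
    hQQ.lintegral_prod_right'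
  have hI2 := hI.pow_const 2
  have hJ : Measurable (fun p : A × R => ∫⁻ z, (∫⁻ y, P p.1 p.2 y.1 y.2 * P y.1 y.2 z.1 z.2
      ∂(μ.prod (Measure.count : Measure R))) ^ 2 ∂(μ.prod (Measure.count : Measure R))) :=
    hI2.lintegral_prod_right'
  rw [hsz_lintS μ S _ hJ]
  refine lintegral_congr (fun g => Finset.sum_congr rfl (fun x _ => ?_))
  have h3 : Measurable (fun z : A × R => (∫⁻ y, P g x y.1 y.2 * P y.1 y.2 z.1 z.2
      ∂(μ.prod (Measure.count : Measure R))) ^ 2) :=
    hI2.comp (measurable_prodMk_left : Measurable (Prod.mk (g, x)))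
  show ∫⁻ z, (∫⁻ y, P g x y.1 y.2 * P y.1 y.2 z.1 z.2
      ∂(μ.prod (Measure.count : Measure R))) ^ 2 ∂(μ.prod (Measure.count : Measure R)) = _
  rw [hsz_lint μ _ h3]
  refine lintegral_congr (fun k => Finset.sum_congr rfl (fun z _ => ?_))
  have h4 : Measurable (fun y : A × R => P g x y.1 y.2 * P y.1 y.2 k z) :=
    hQQ.comp (measurable_prodMk_left : Measurable (Prod.mk (((g, x) : A × R), ((k, z) : A × R))))
  show (∫⁻ y, P g x y.1 y.2 * P y.1 y.2 k z ∂(μ.prod (Measure.count : Measure R))) ^ 2 = _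
  rw [hsz_lint μ _ h4]

end abs

theorem hsz_det {m : ℕ} (hm1 : 1 ≤ m) {z : V m} (hz : 1 ≤ aN (mt z)) : (mt z).det ≠ 0 := by
  intro h
  unfold aN at hz
  rw [h, abs_zero, Real.zero_rpow] at hz
  · linarith
  · have : (0 : ℝ) < m := by exact_mod_cast hm1
    positivity

theorem pf_HSZ : T_BMP → T_BE2 → T_CKZ → T_MKZ → T_FCZ → T_OCZ → T_HSZ := by
  intro hBMP hBE2 hCKZ hMKZ hFCZ hOCZ m q _ T D hSys ι _ _ F lam mu hF hOrth χ δ hχ hδ hδ2 y S
    hSD hS
  classical
  have hm1 := hSys.one_le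
  have hΦ : Tst m (bump m χ δ) := ((hBMP m χ hm1 hχ).1 δ hδ hδ2).1
  obtain ⟨hC1, hC2⟩ := hCKZ m q χ δ hm1 hSys.two_le hχ hδ hδ2 y
  have hDm := hSys.dom.meas
  have hDdet : ∀ z ∈ D, (mt z).det ≠ 0 := fun z hz => hsz_det hm1 (hSys.dom.shell z hz).1
  have hsf : SFinite (hm m) := by unfold hm; infer_instance
  let _ms : MeasurableSpace (RM m q) := ⊤
  have _hs : MeasurableSingletonClass (RM m q) := ⟨fun _ => trivial⟩
  obtain ⟨μ, hμ⟩ : ∃ μ : Measure (V m), μ = (hm m).restrict D := ⟨_, rfl⟩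
  have hsfμ : SFinite μ := by rw [hμ]; infer_instance
  have hsfn : SFinite (μ.prod (Measure.count : Measure (RM m q))) := by infer_instance
  have hae : ∀ᵐ p ∂(μ.prod (Measure.count : Measure (RM m q))), p.1 ∈ D := by
    have h1 : ∀ᵐ z ∂μ, z ∈ D := by rw [hμ]; exact ae_restrict_mem hDm
    exact Measure.quasiMeasurePreserving_fst.ae h1
  have hμS : μ.restrict S = (hm m).restrict S := by
    rw [hμ, Measure.restrict_restrict_of_subset hSD]
  -- measurability of the kernels
  have hPm : Measurable (fun p : (V m × RM m q) × (V m × RM m q) =>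
      Pz y (mt p.1.1) p.1.2 (mt p.2.1) p.2.2) :=
    hsz_meas (fun g x h w => Pz y (mt g) x (mt h) w) (fun x w => (hMKZ m q y x w hm1).1)
  have hKm : Measurable (fun p : (V m × RM m q) × (V m × RM m q) =>
      Cz (bump m χ δ) y (mt p.1.1) p.1.2 (mt p.2.1) p.2.2) :=
    hsz_meas (fun g x h w => Cz (bump m χ δ) y (mt g) x (mt h) w)
      (fun x w => (hMKZ m q y x w hm1).2 _ hΦ)
  -- the functions
  obtain ⟨f, hfdef⟩ : ∃ f : ι → V m × RM m q → ℂ, ∀ i z x, f i (z, x) =
      D.piecewise (fun z => F i (mt z) x) (fun _ => 0) z := by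
    exact ⟨fun i p => D.piecewise (fun z => F i (mt z) p.2) (fun _ => 0) p.1, fun _ _ _ => rfl⟩
  have hfD : ∀ i, ∀ z ∈ D, ∀ x : RM m q, f i (z, x) = F i (mt z) x := by
    intro i z hz x
    rw [hfdef, Set.piecewise_eq_of_mem _ _ _ hz]
  have hcmt : Continuous (fun z : V m => mt z) := continuous_id
  have hfm : ∀ i, Measurable (f i) := by
    intro i
    refine measurable_from_prod_countable_left (fun x => ?_)
    have h1 : Measurable (D.piecewise (fun z => F i (mt z) x) (fun _ => (0 : ℂ))) := by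
      refine ContinuousOn.measurable_piecewise ?_ continuousOn_const hDm
      exact ((hF i).cont x).comp hcmt.continuousOn (fun z hz => hDdet z hz)
    have h2 : (fun z => f i (z, x)) =
        D.piecewise (fun z => F i (mt z) x) (fun _ => (0 : ℂ)) := by
      funext z
      rw [hfdef]
    rw [h2]
    exact h1
  -- integrability and orthonormality
  have hint : ∀ i j, Integrable (fun p => f i p * (starRingEnd ℂ) (f j p))
      (μ.prod (Measure.count : Measure (RM m q))) := by
    intro i j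
    have hmeas : Measurable (fun p => f i p * (starRingEnd ℂ) (f j p)) :=
      (hfm i).mul (Complex.continuous_conj.measurable.comp (hfm j))
    rw [integrable_prod_iff' hmeas.aestronglyMeasurable]
    refine ⟨Filter.Eventually.of_forall (fun x => ?_), Integrable.of_finite⟩
    rw [hμ]
    refine (hOrth.1 i j x).congr_fun (fun z hz => ?_) hDm
    show F i (mt z) x * (starRingEnd ℂ) (F j (mt z) x) = _
    rw [hfD i z hz x, hfD j z hz x]
  have horth : ∀ i j, ∫ p, f i p * (starRingEnd ℂ) (f j p)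
      ∂(μ.prod (Measure.count : Measure (RM m q))) = if i = j then 1 else 0 := by
    intro i j
    rw [← hOrth.2 i j, integral_prod_symm _ (hint i j), integral_count]
    refine Finset.sum_congr rfl (fun x _ => ?_)
    rw [hμ]
    refine setIntegral_congr_fun hDm (fun z hz => ?_)
    show f i (z, x) * (starRingEnd ℂ) (f j (z, x)) = _
    rw [hfD i z hz x, hfD j z hz x]
  -- the operator
  have hop : ∀ i, ∀ g ∈ D, ∀ x : RM m q,
      ∫ p', Cz (bump m χ δ) y (mt g) x (mt p'.1) p'.2 * f i p'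
        ∂(μ.prod (Measure.count : Measure (RM m q))) =
      th1 (bump m χ δ) (mu i) 1 * DF m q (lam i) y * f i (g, x) := by
    intro i g hg x
    obtain ⟨B, hB⟩ := (hF i).bdd
    have hmK : Measurable (fun p' : V m × RM m q => Cz (bump m χ δ) y (mt g) x (mt p'.1) p'.2) :=
      hKm.comp (measurable_prodMk_left : Measurable (Prod.mk ((g, x) : V m × RM m q)))
    have hmP : Measurable (fun p' : V m × RM m q =>
        (Pz y (mt g) x (mt p'.1) p'.2 : ENNReal)) :=
      hPm.comp (measurable_prodMk_left : Measurable (Prod.mk ((g, x) : V m × RM m q)))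
    have hb : ∫⁻ p', ‖Cz (bump m χ δ) y (mt g) x (mt p'.1) p'.2 * f i p'‖ₑ
        ∂(μ.prod (Measure.count : Measure (RM m q))) ≤
        ENNReal.ofReal B * ∫⁻ h in D, ∑ w : RM m q, Pz y (mt g) x (mt h) w ∂(hm m) := by
      have e1 : ∫⁻ h in D, ∑ w : RM m q, Pz y (mt g) x (mt h) w ∂(hm m) =
          ∫⁻ p' : V m × RM m q, Pz y (mt g) x (mt p'.1) p'.2
            ∂(μ.prod (Measure.count : Measure (RM m q))) := by
        rw [hsz_lint μ _ hmP, hμ]
      rw [e1, ← lintegral_const_mul _ hmP]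
      refine lintegral_mono_ae ?_
      filter_upwards [hae] with p' hp'
      rw [enorm_mul, mul_comm]
      refine mul_le_mul' ?_ ?_
      · rw [← ofReal_norm]
        refine ENNReal.ofReal_le_ofReal ?_
        obtain ⟨z, w⟩ := p'
        rw [hfD i z hp' w]
        exact hB _ _ (hDdet z hp')
      · rw [← ofReal_norm]
        exact hC1 _ _ _ _
    have hint2 : Integrable (fun p' : V m × RM m q =>
        Cz (bump m χ δ) y (mt g) x (mt p'.1) p'.2 * f i p')
        (μ.prod (Measure.count : Measure (RM m q))) :=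
      ⟨(hmK.mul (hfm i)).aestronglyMeasurable, lt_of_le_of_lt hb
        (ENNReal.mul_lt_top ENNReal.ofReal_lt_top (hFCZ m q T D hSys y (mt g) x (hDdet g hg)))⟩
    rw [integral_prod _ hint2]
    have e2 : ∫ z, ∫ w, Cz (bump m χ δ) y (mt g) x (mt ((z, w) : V m × RM m q).1)
          ((z, w) : V m × RM m q).2 * f i (z, w) ∂(Measure.count : Measure (RM m q)) ∂μ =
        opCz q (bump m χ δ) y D (F i) (mt g) x := by
      unfold opCz
      rw [hμ]
      refine setIntegral_congr_fun hDm (fun z hz => ?_)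
      show ∫ w, Cz (bump m χ δ) y (mt g) x (mt z) w * f i (z, w)
        ∂(Measure.count : Measure (RM m q)) = _
      rw [integral_count]
      have e3 := hC2 (F i (mt z)) (fun x hx => (hF i).supp _ _ hx) (mt g) (mt z) x
        (hDdet g hg) (hDdet z hz)
      refine Eq.trans ?_ e3.symm
      refine Finset.sum_congr rfl (fun w _ => ?_)
      rw [hfD i z hz w]
    rw [e2, hOCZ m q T D hSys (F i) (lam i) (mu i) (hF i) _ hΦ y (mt g) x (hDdet g hg),
      hfD i g hg x]
  have hop2 : ∀ i, ∀ g ∈ D, ∀ x : RM m q,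
      ∫ p', Cz (bump m χ δ) y (mt g) x (mt p'.1) p'.2 *
        (∫ p'', Cz (bump m χ δ) y (mt p'.1) p'.2 (mt p''.1) p''.2 * f i p''
          ∂(μ.prod (Measure.count : Measure (RM m q))))
        ∂(μ.prod (Measure.count : Measure (RM m q))) =
      (th1 (bump m χ δ) (mu i) 1 * DF m q (lam i) y) *
        (th1 (bump m χ δ) (mu i) 1 * DF m q (lam i) y * f i (g, x)) := by
    intro i g hg x
    rw [← hop i g hg x, ← integral_const_mul]
    refine integral_congr_ae ?_
    filter_upwards [hae] with p' hp'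
    obtain ⟨z, w⟩ := p'
    show Cz (bump m χ δ) y (mt g) x (mt z) w * (∫ p'', Cz (bump m χ δ) y (mt z) w
      (mt p''.1) p''.2 * f i p'' ∂(μ.prod (Measure.count : Measure (RM m q)))) = _
    rw [hop i z hp' w]
    show _ = _ * (Cz (bump m χ δ) y (mt g) x (mt z) w * f i (z, w))
    ring
  have hop3 : ∀ i, ∀ g ∈ D, ∀ x : RM m q,
      opCz q (bump m χ δ) y D (opCz q (bump m χ δ) y D (F i)) (mt g) x =
      (th1 (bump m χ δ) (mu i) 1 * DF m q (lam i) y) *
        (th1 (bump m χ δ) (mu i) 1 * DF m q (lam i) y * f i (g, x)) := by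
    intro i g hg x
    have e1 := hOCZ m q T D hSys (F i) (lam i) (mu i) (hF i) _ hΦ y (mt g) x (hDdet g hg)
    rw [hfD i g hg x, ← e1]
    unfold opCz
    rw [← integral_const_mul]
    refine setIntegral_congr_fun hDm (fun z hz => ?_)
    show ∑' α : ZM m, _ = _ * ∑' α : ZM m, _
    rw [← tsum_mul_left]
    refine tsum_congr (fun α => ?_)
    have e2 := hOCZ m q T D hSys (F i) (lam i) (mu i) (hF i) _ hΦ y (mt z) (cQ q α * x)
      (hDdet z hz)
    unfold opCz at e2
    rw [e2]
    split_ifs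
    · ring
    · rw [mul_zero]
  have hbes := hBE2 (V m × RM m q) (μ.prod (Measure.count : Measure (RM m q))) ι f
    (fun p p' => Cz (bump m χ δ) y (mt p.1) p.2 (mt p'.1) p'.2)
    (fun p p' => Pz y (mt p.1) p.2 (mt p'.1) p'.2) (S ×ˢ Set.univ) (hS.prod MeasurableSet.univ)
    hfm hint horth hKm hPm (fun p p' => hC1 _ _ _ _)
  have hrhs := hsz_rhs μ S (fun g x h w => (Pz y (mt g) x (mt h) w : ENNReal)) hPm
  rw [hrhs, hμS] at hbes
  have hopm : ∀ f : V m × RM m q → ℂ, Measurable f →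
      Measurable (fun p : V m × RM m q => ∫ p', Cz (bump m χ δ) y (mt p.1) p.2 (mt p'.1) p'.2 *
        f p' ∂(μ.prod (Measure.count : Measure (RM m q)))) := by
    intro f hf
    have h1 : StronglyMeasurable (fun w : (V m × RM m q) × (V m × RM m q) =>
        Cz (bump m χ δ) y (mt w.1.1) w.1.2 (mt w.2.1) w.2.2 * f w.2) :=
      (hKm.mul (hf.comp measurable_snd)).stronglyMeasurable
    exact h1.integral_prod_right'.measurable
  have hlhs : ∀ i, ∑ x : RM m q, ∫⁻ g in S, ENNReal.ofReal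
      (‖opCz q (bump m χ δ) y D (opCz q (bump m χ δ) y D (F i)) (mt g) x‖ ^ 2) ∂(hm m) =
      ∫⁻ p in S ×ˢ (Set.univ : Set (RM m q)), ENNReal.ofReal
        (‖∫ p', Cz (bump m χ δ) y (mt p.1) p.2 (mt p'.1) p'.2 *
        (∫ p'', Cz (bump m χ δ) y (mt p'.1) p'.2 (mt p''.1) p''.2 * f i p''
          ∂(μ.prod (Measure.count : Measure (RM m q))))
        ∂(μ.prod (Measure.count : Measure (RM m q)))‖ ^ 2)
        ∂(μ.prod (Measure.count : Measure (RM m q))) := by
    intro i
    have h1 : Measurable (fun p : V m × RM m q => ENNReal.ofReal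
        (‖∫ p', Cz (bump m χ δ) y (mt p.1) p.2 (mt p'.1) p'.2 *
        (∫ p'', Cz (bump m χ δ) y (mt p'.1) p'.2 (mt p''.1) p''.2 * f i p''
          ∂(μ.prod (Measure.count : Measure (RM m q))))
        ∂(μ.prod (Measure.count : Measure (RM m q)))‖ ^ 2)) :=
      ((hopm _ (hopm _ (hfm i))).norm.pow_const 2).ennreal_ofReal
    rw [hsz_lintS μ S _ h1, hμS, lintegral_finsetSum]
    · refine Finset.sum_congr rfl (fun x _ => ?_)
      refine setLIntegral_congr_fun hS (fun g hg => ?_)
      show ENNReal.ofReal (‖opCz q (bump m χ δ) y D (opCz q (bump m χ δ) y D (F i))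
        (mt g) x‖ ^ 2) = ENNReal.ofReal
        (‖∫ p', Cz (bump m χ δ) y (mt g) x (mt p'.1) p'.2 *
        (∫ p'', Cz (bump m χ δ) y (mt p'.1) p'.2 (mt p''.1) p''.2 * f i p''
          ∂(μ.prod (Measure.count : Measure (RM m q))))
        ∂(μ.prod (Measure.count : Measure (RM m q)))‖ ^ 2)
      rw [hop3 i g (hSD hg) x, hop2 i g (hSD hg) x]
    · intro x _
      exact h1.comp (measurable_prodMk_right : Measurable (fun g : V m => (g, x)))
  rw [Finset.sum_congr rfl (fun i _ => hlhs i)]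
  refine hbes.trans (le_of_eq ?_)
  unfold Ez PPz
  rw [hμ]

end Pool.Agent.H61.GZ
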